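import Pool.Agent.Helper31.TMS.Out

open Pool.Agent.Helper65.LinSpace Pool.Agent.Helper28.Ram Pool.Agent.Helper31
open Pool.Agent.Helper20.MH (MultiHead)
open Pool.Agent.Helper81.Sus2 (Decomp)
open Pool.Agent.Helper81.Gen4 (Q)

namespace Pool.Agent.Helper31.Draft.SustainedMultihead

/-- **A space hierarchy theorem for sustained multitape computations.** Let `c > 0` be a number.
Consider machines (`MultiHead D K`) with `K` heads on tapes of dimension `D`, of any running time,
whose states and cells contain words; they read an input word of length `n`, an advice word and a
word of `3 c n` further letters. The acceptance condition `Q (c n)` is: alternating quantifiers for the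
first `c n` letters, then more than half of the words `u` for the next `c n` letters, then alternating
quantifiers again; so machines with `c n` random letters and two-sided, even unbounded, error,
nondeterminism, alternation, and constant-round Arthur-Merlin games are covered. A description of the tapes at a time
is a word `d` from which a decompressor (`Decomp`), which works in space `a` and has random access to
the input word, the advice word and `d`, computes the contents of all cells of all tapes (in the boxes
in which the heads stay). A computation is good (`MHS.Within`) if it has at most `r` steps in every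
stretch during which the tapes have no description of at most `c n` bits. The bounds are, for
`l = b + ⌊log₂ n⌋ + 1` and `q = D / (2 D - 1)`: `r (s + l) ^ q l ^ 4 ≤ C (n + 1) ^ (1 + q)`,
`(s + l) l ^ 2 ≤ C (n + 1)` and `a l ^ 2 ≤ C (n + 1)`, where the heads stay in the cubes
`[-2 ^ b, 2 ^ b) ^ D`, and states and contents have at most `s` bits. The running time is not bounded.

Every language which is accepted by such machines is in `DSPACE(n)`. On the other hand there is a
language `L` in `DSPACE(n)` such that for all `D`, `K`, every machine, every decompressor and every
`C` there is a `c'` such that for `M = L` and for `M` the complement of `L`, for all `n` and all advice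
words `α` of any length `m`, the machine is correct within these bounds on at most
`2^n / 2 + c' (m + 1) 2^((n + m / c) / 2)` words of length `n`. The same language has the same property
for ordinary Turing machines with `k` work tapes, stated in their own terms (`TMS.Within`; here
`r l ^ 5 ≤ C (n + 1) ^ 2` and `l ^ 3 ≤ C (n + 1)`).

In particular, every multitape Turing machine which decides `L` (or its complement) in polynomial
space passes, on all but `c' 2^(n / 2)` of the words of length `n` in the language, through more than
`C n^2 / log^5 n` successive steps such that at no time between them its tapes have a description of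
`c n` bits. Without descriptions (only one stretch, from the start to the accepting time) this is a
lower bound for the time of machines with several heads on tapes of dimension `D`, with the exponent
`1 + D / (2 D - 1)`. As the universal player can be replaced by coins, the theorem also covers
public-coin interactive proofs with any number of rounds, perfect completeness and `c n` bits of
messages and coins, whose verifiers are such machines. -/
theorem result (c : ℕ) (hc : 0 < c) :
    (∀ (D K : ℕ), 0 < D → 0 < K → ∀ (A : MultiHead D K) (E : Decomp) (L : Set (List Bool)) (C : ℝ),
      (∀ w, Q (c * w.length) (fun v => ∃ t, A.AcceptsAt w v t) → w ∈ L) →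
      (∀ w ∈ L, Q (c * w.length) (MHS.Within A E c C w)) → DLINSPACE L) ∧
    ∃ L : Set (List Bool), DLINSPACE L ∧
      (∀ (D K : ℕ), 0 < D → 0 < K → ∀ (A : MultiHead D K) (E : Decomp) (C : ℝ), ∃ c' : ℝ,
        ∀ (n : ℕ) (α : List Bool), ∀ M, M = L ∨ M = Lᶜ →
        ({w : List Bool | w.length = n ∧
          (Q (c * n) (fun v => ∃ t, A.AcceptsAt w (α ++ v) t) → w ∈ M) ∧
          (w ∈ M → Q (c * n) fun v => MHS.Within A E c C w (α ++ v))}.ncard : ℝ) ≤
          2 ^ n / 2 + c' * ((α.length : ℝ) + 1) * 2 ^ (((n : ℝ) + α.length / c) / 2)) ∧
      ∀ (k : ℕ), 0 < k → ∀ (M : TM k) (code : M.Sym → List Bool), Function.Injective code →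
        code M.blank = [] → ∀ (E : Decomp) (C : ℝ), ∃ c' : ℝ, ∀ n : ℕ, ∀ N, N = L ∨ N = Lᶜ →
        ({w : List Bool | w.length = n ∧ ((∃ t, TMS.AcceptsAt M w t) → w ∈ N) ∧
          (w ∈ N → TMS.Within M code E c C w)}.ncard : ℝ) ≤ 2 ^ n / 2 + c' * 2 ^ ((n : ℝ) / 2) :=
  TMS.sustained_multi c hc

end Pool.Agent.Helper31.Draft.SustainedMultihead
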