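import Pool.Agent.Helper31.MHSH.Two

open Pool.Agent.Helper65.LinSpace Pool.Agent.Helper28.Ram Pool.Agent.Helper31
open Pool.Agent.Helper20.MH (MultiHead)
open Pool.Agent.Helper81.Sus2 (Decomp)
open Pool.Agent.Helper81.Gen4 (Q)
open Pool.Agent.Helper31.Gen5 (Hard)

namespace Pool.Agent.Results.MP_c578c8_lc.SustainedMultihead

/-- **A space hierarchy theorem, almost everywhere, for sustained multitape computations.** Let `c > 0`
be a number. Consider machines (`MultiHead D K`) with `K` heads on tapes of dimension `D`, of any
running time, whose states and cells contain words; they read an input word of length `n`, an advice
word and a word of `3 c n` further letters. The acceptance condition `Q (c n)` is: alternating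
quantifiers for the first `c n` letters, then more than half of the words `u` for the next `c n`
letters, then alternating quantifiers again; so machines with `c n` random letters and two-sided, even
unbounded, error, nondeterminism, alternation, and constant-round Arthur-Merlin games are covered. A
description of the tapes at a time is a word `d` from which a decompressor (`Decomp`), which works in
space `a` and has random access to the input word, the advice word and `d`, computes the contents of
all cells of all tapes (in the boxes in which the heads stay). A computation is good (`MHS.Within`) if
it has at most `r` steps in every stretch during which the tapes have no description of at most `c n`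
bits. The bounds are, for `l = b + ⌊log₂ n⌋ + 1` and `q = D / (2 D - 1)`:
`r (s + l) ^ q l ^ 4 ≤ C (n + 1) ^ (1 + q)`, `(s + l) l ^ 2 ≤ C (n + 1)` and `a l ^ 2 ≤ C (n + 1)`, where
the heads stay in the cubes `[-2 ^ b, 2 ^ b) ^ D`, and states and contents have at most `s` bits. The
running time is not bounded.

Every language which is accepted by such machines is in `DSPACE(n)`. On the other hand there is a
language `L` in `DSPACE(n)` which is hard (`Gen5.Hard`) for every such machine, every decompressor and
every `C`, in three ways. Let `M` be `L` or the complement of `L`.

* Almost everywhere: if the machine (without advice) accepts only finitely many words outside `M` then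
  it accepts only finitely many words within the bounds.
* Relative to the errors, with advice `α` of any length `m`: if the machine accepts `E` words of length
  `n` outside `M` then it accepts within the bounds at most `(√E + c' (m + 1) 2^(m / 2 c))^2` words of
  length `n` in `M`. In particular (`E = 0`) a machine which never errs on words of length `n` settles
  at most `c'^2 (m + 1)^2 2^(m / c)` of the `2^n` words.
* On average: the machine is correct within these bounds on at most
  `2^n / 2 + c' (m + 1) 2^((n + m / c) / 2)` words of length `n`.

The same language is hard for ordinary Turing machines with `k` work tapes, stated in their own terms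
(`TMS.Within`; here `r l ^ 5 ≤ C (n + 1) ^ 2` and `l ^ 3 ≤ C (n + 1)`).

In particular, every multitape Turing machine which decides `L` in polynomial space passes, on all but
finitely many words, through more than `C n^2 / log^5 n` successive steps such that at no time between
them its tapes have a description of `c n` bits. Without descriptions (only one stretch, from the start
to the accepting time) this is a lower bound for the time of machines with several heads on tapes of
dimension `D`, with the exponent `1 + D / (2 D - 1)`. As the universal player can be replaced by coins,
the theorem also covers public-coin interactive proofs with any number of rounds, perfect completeness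
and `c n` bits of messages and coins, whose verifiers are such machines. -/
theorem result (c : ℕ) (hc : 0 < c) :
    (∀ (D K : ℕ), 0 < D → 0 < K → ∀ (A : MultiHead D K) (E : Decomp) (L : Set (List Bool)) (C : ℝ),
      (∀ w, Q (c * w.length) (fun v => ∃ t, A.AcceptsAt w v t) → w ∈ L) →
      (∀ w ∈ L, Q (c * w.length) (MHS.Within A E c C w)) → DLINSPACE L) ∧
    ∃ L : Set (List Bool), DLINSPACE L ∧
      (∀ (D K : ℕ), 0 < D → 0 < K → ∀ (A : MultiHead D K) (E : Decomp) (C : ℝ),
        Hard L c (fun w α => Q (c * w.length) fun v => ∃ t, A.AcceptsAt w (α ++ v) t)
          (fun w α => Q (c * w.length) fun v => MHS.Within A E c C w (α ++ v))) ∧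
      ∀ (k : ℕ), 0 < k → ∀ (M : TM k) (code : M.Sym → List Bool), Function.Injective code →
        code M.blank = [] → ∀ (E : Decomp) (C : ℝ),
        Hard L c (fun w _ => ∃ t, TMS.AcceptsAt M w t) (fun w _ => TMS.Within M code E c C w) :=
  MHSH.sustained_multi c hc

end Pool.Agent.Results.MP_c578c8_lc.SustainedMultihead
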